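import Pool.Agent.H979.BK.Defs

/-! # Project BK (MP_1e2081_pr, Q1): statements of the lemmas, with proofs in the docstrings -/

open Filter Topology Finset

namespace Pool.Agent.H979.BK

/-! ### More definitions -/

/-- one move with `σ`, for the position of one ball -/
noncomputable def A {d : ℕ} (δ : ℝ) (σ : Equiv.Perm (Fin d)) : Matrix (Fin d) (Fin d) ℝ :=
  fun i j => (1 - δ) * (if i = j then 1 else 0) + δ * (if σ i = j then 1 else 0)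

/-- one move, for the position of one ball -/
noncomputable def AU {d : ℕ} (μ : Equiv.Perm (Fin d) → ℝ) (δ : ℝ) : Matrix (Fin d) (Fin d) ℝ :=
  (1 - δ) • (1 : Matrix (Fin d) (Fin d) ℝ) + δ • U μ

/-- random products acting on row vectors -/
noncomputable def KR {d : ℕ} (μ : Equiv.Perm (Fin d) → ℝ) (δ : ℝ) (f : (Fin d → ℝ) → ℝ)
    (w : Fin d → ℝ) : ℝ :=
  ∑ σ, μ σ * f (Matrix.vecMul w (A δ σ))

/-- l1 distance of the matrices of counts at time 0 -/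
def ell {d : ℕ} (x y : Fin d → Fin d → ℕ) : ℝ := ∑ l, ∑ j, |((x l j : ℕ) : ℝ) - ((y l j : ℕ) : ℝ)|

/-- number of balls of different colour -/
def dif {d n : ℕ} (c c' : Ball d n → Fin d) : ℕ := (univ.filter fun b => c b ≠ c' b).card

/-- number of balls of `K` in urn `l` -/
def kap {d n : ℕ} (K : Finset (Ball d n)) (u : Ball d n → Fin d) (l : Fin d) : ℕ :=
  (K.filter fun b => u b = l).card

/-- flows -/
def flow {d n : ℕ} (u : Ball d n → Fin d) (i l : Fin d) : ℕ :=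
  (univ.filter fun b : Ball d n => b.1 = i ∧ u b = l).card

/-! ### Structure of the chain -/

/-- A1. The law after `m` moves is a probability on balanced placements. Proof: for balanced `u` the
set `sel k u` is nonempty (k ≤ n), `move σ A u` is balanced for `A ∈ sel k u` (urn `σ i` loses k balls
and gains the k balls of urn `i`). By induction `(T μ k)^[m] f u = ∑ u', p_m(u,u') f u'` for `u` balanced. -/
def S_A1 : Prop := ∀ (d n k : ℕ) (μ : Equiv.Perm (Fin d) → ℝ), IsProb μ → k ≤ n → ∀ m : ℕ,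
  ∃ p : (Ball d n → Fin d) → ℝ, (∀ u, 0 ≤ p u) ∧ (∑ u, p u = 1) ∧ (∀ u, ¬ Bal u → p u = 0) ∧
    ∀ f : (Ball d n → Fin d) → ℝ, E μ k m f = ∑ u, p u * f u

/-- A2. Exchangeability: for every permutation `ρ` of the balls `T (f (· ∘ ρ)) u = (T f) (u ∘ ρ)`
(`A ↦ ρ⁻¹ A` is a bijection from `sel k u` to `sel k (u ∘ ρ)`, and `move σ (ρ⁻¹ A) (u ∘ ρ) =
(move σ A u) ∘ ρ`); the start `Prod.fst` is fixed by `ρ` if `ρ` preserves the urns. Second part: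
`cnt c (u ∘ ρ) = cnt (c ∘ ρ⁻¹) u`; if `c, c'` have the same counts at time 0, then
`c' = c ∘ ρ` for some urn preserving `ρ`. -/
def S_A2 : Prop := ∀ (d n k : ℕ) (μ : Equiv.Perm (Fin d) → ℝ) (m : ℕ),
  (∀ (f : (Ball d n → Fin d) → ℝ) (ρ : Equiv.Perm (Ball d n)), (∀ b, (ρ b).1 = b.1) →
    E μ k m (fun u => f (u ∘ ρ)) = E μ k m f) ∧
  (∀ (f : (Fin d → Fin d → ℕ) → ℝ) (c c' : Ball d n → Fin d),
    cnt c Prod.fst = cnt c' Prod.fst →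
    E μ k m (fun u => f (cnt c u)) = E μ k m (fun u => f (cnt c' u)))

/-- A4. Markov property for the counts. Proof: `E (m+m') F = E m (T^[m'] F)` and for balanced `u`,
`u = Prod.fst ∘ ρ` for a permutation `ρ` of the balls, so `(T^[m'] (f ∘ cnt c)) (fst ∘ ρ) =
(T^[m'] (f ∘ cnt c ∘ (· ∘ ρ))) fst = E m' (f ∘ cnt (c ∘ ρ⁻¹)) = g (cnt (c ∘ ρ⁻¹) fst) =
g (cnt c u)`. Uses S_A1 (only balanced `u` matter) and the first line of the proof of S_A2. -/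
def S_A4 : Prop := ∀ (d n k : ℕ) (μ : Equiv.Perm (Fin d) → ℝ), IsProb μ → k ≤ n →
  ∀ (m m' : ℕ) (f g : (Fin d → Fin d → ℕ) → ℝ),
  (∀ c' : Ball d n → Fin d, Bal c' → g (cnt c' Prod.fst) = E μ k m' (fun u => f (cnt c' u))) →
  ∀ c : Ball d n → Fin d, Bal c →
    E μ k (m + m') (fun u => f (cnt c u)) = E μ k m (fun u => g (cnt c u))

open Classical in
/-- A5. Stationarity. Proof: with `S_A1`, `∑_c E m (f ∘ cnt c) = ∑_u p u ∑_c f (cnt c u)` and for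
balanced `u = fst ∘ ρ` the inner sum is `∑_c f (cnt (c ∘ ρ⁻¹) fst) = ∑_c f (cnt c fst)`. -/
def S_A5 : Prop := ∀ (d n k : ℕ) (μ : Equiv.Perm (Fin d) → ℝ), IsProb μ → k ≤ n →
  ∀ (m : ℕ) (f : (Fin d → Fin d → ℕ) → ℝ),
  ∑ c ∈ univ.filter (fun c : Ball d n → Fin d => Bal c), E μ k m (fun u => f (cnt c u)) =
    ∑ c ∈ univ.filter (fun c : Ball d n → Fin d => Bal c), f (cnt c Prod.fst)

/-- B1. Mean of linear statistics. Proof: a ball is in a uniformly random `A ∈ sel k u` with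
probability `k/n` (u balanced; symmetry), so `T (∑ a b h(u b)) (u) = ∑ a b (AU h)(u b)`. Iterate. -/
def S_B1 : Prop := ∀ (d n k : ℕ) (μ : Equiv.Perm (Fin d) → ℝ), IsProb μ → k ≤ n → 1 ≤ n →
  ∀ (m : ℕ) (a : Ball d n → ℝ) (h : Fin d → ℝ),
  E μ k m (fun u => ∑ b, a b * h (u b)) =
    ∑ b, a b * ((AU μ ((k : ℝ) / n)) ^ m).mulVec h b.1

/-- B2. Variance of linear statistics, `δ = k/n`. Proof: conditional variance in one step from a balanced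
`u`, for a function `h` with `|h| ≤ H`: given `σ`, `∑ a b h(u' b)` has variance
`∑_i (h(σ i) - h(i))^2 Var(∑_{b in urn i} a_b 1_{b ∈ A}) ≤ 4H² δ D` (sampling without replacement:
`Var(∑_{b∈W} a_b 1_{b∈A}) = (k/n)((n-k)/(n-1)) ∑ (a_b - mean)² ≤ δ ∑ a_b²` as k ≥ 1, and
independence of the urns); the mean given `σ` is `∑ a_b((1-δ)h(u b) + δ h(σ(u b)))`, whose variance over
`σ` is at most `(2HδD)²`. So `T(L²)(u) ≤ (TL(u))² + 4H²(δD+δ²D²)` for `L = ∑ a_b h(u b)`, and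
`TL = ∑ a_b (AU h)(u b)`, `|AU h| ≤ H`. Induct on `m` (write `E (m+1) F = E m (T F)`). -/
def S_B2 : Prop := ∀ (d n k : ℕ) (μ : Equiv.Perm (Fin d) → ℝ), IsProb μ → 1 ≤ k → k ≤ n →
  ∀ (m : ℕ) (a : Ball d n → ℝ) (h : Fin d → ℝ) (H : ℝ), (∀ b, |a b| ≤ 1) → (∀ i, |h i| ≤ H) →
  E μ k m (fun u => (∑ b, a b * h (u b) -
      ∑ b, a b * ((AU μ ((k : ℝ) / n)) ^ m).mulVec h b.1) ^ 2) ≤
    4 * H ^ 2 * m * ((k : ℝ) / n * (univ.filter fun b => a b ≠ 0).card +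
      ((k : ℝ) / n * (univ.filter fun b => a b ≠ 0).card) ^ 2)

/-- GAP. Proof: for an eigenvector with eigenvalue `z ≠ 1` the sum is 0 (`∑ U v = ∑ v`, columns of `U` sum
to 1). `|z| ≤ 1`; if `Re z = 1` then `z = 1`, and then `v` is constant (maximum principle for real and
imaginary parts, irreducibility). So the set in `gap` is the set of `1 - Re z` over the finitely many
eigenvalues with an eigenvector of zero sum, it is nonempty (`d ≥ 2`, `U` preserves the zero sum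
vectors), so the infimum is attained and positive. -/
def S_GAP : Prop := ∀ (d : ℕ) (μ : Equiv.Perm (Fin d) → ℝ), 2 ≤ d → IsProb μ → Irred μ →
  0 < gap μ ∧ ∃ (z : ℂ) (v : Fin d → ℂ), v ≠ 0 ∧ ∑ i, v i = 0 ∧
    ((U μ).map (fun a => (a : ℂ))).mulVec v = z • v ∧ gap μ = 1 - z.re ∧
    ∀ (z' : ℂ) (v' : Fin d → ℂ), v' ≠ 0 → ∑ i, v' i = 0 →
      ((U μ).map (fun a => (a : ℂ))).mulVec v' = z' • v' → z'.re ≤ z.re

/-- SYM. Proof: `∑ y_i² - ∑ y_i (U y)_i = (1/2) ∑_{ij} U_ij (y_i - y_j)² ≥ 0` (doubly stochastic), zero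
only if `y_i = y_j` whenever `U_ij > 0`, hence `y` constant (irreducible), hence `0` if the sum is
zero; compactness of the unit sphere. -/
def S_SYM : Prop := ∀ (d : ℕ) (μ : Equiv.Perm (Fin d) → ℝ), 2 ≤ d → IsProb μ → Irred μ →
  ∃ c : ℝ, 0 < c ∧ ∀ y : Fin d → ℝ, ∑ i, y i = 0 →
    ∑ i, y i * (U μ).mulVec y i ≤ (1 - c) * ∑ i, y i ^ 2

open Classical in
/-- STATVAR. Number of balls of colour `j` in urn `l` for a uniformly random balanced colouring: mean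
`n/d`, variance at most `n`. Proof: permutations of all the balls act on the balanced colourings; so
`∑_c 1{c b = j}` does not depend on `b` and `∑_c 1{c b = j, c b' = j}` does not depend on the
pair `b ≠ b'`; with `N = dn`, `∑_b 1{c b = j} = n`: they are `n/N` and `n(n-1)/(N(N-1))` times the
number of colourings. Negative covariance, so the variance is at most `n · (1/d)`. -/
def S_STATVAR : Prop := ∀ (d n : ℕ), 1 ≤ d → 1 ≤ n → ∀ l j : Fin d,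
  ∑ c ∈ univ.filter (fun c : Ball d n → Fin d => Bal c),
    ((cnt c Prod.fst l j : ℝ) - (n : ℝ) / d) ^ 2 ≤
  (n : ℝ) * ((univ.filter (fun c : Ball d n → Fin d => Bal c)).card : ℝ)

/-! ### Lower bound -/

open Classical in
/-- NOISE (uses S_SYM, S_A1). Urn `j0` at time 0, `r_l(u)` = number of its balls in urn `l`. Proof: joint
operator on functions of `(u, w)`: `J f (u, w) = ∑ σ, μ σ * Ts k σ (fun u' => f (u', w A(σ))) u`, start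
`(fst, e_{j0})`; its marginals are `T` and `KR`. Let `e = r(u) - n w` (zero sum). In one step from a
balanced `u`: given `σ`, the mean of `r(u')` is `r(u) A(σ)`, and the variance of each coordinate is at
most `2k·2` (numbers `S_i` of the balls of the start urn `j0` among the `k` moved balls of urn `i`,
hypergeometric, variance ≤ k; `r'_l = r_l - S_l + S_{σ⁻¹ l}`). And `∑_σ μ_σ |e A(σ)|² =
((1-δ)²+δ²)|e|² + 2δ(1-δ) ⟨e, eU⟩ ≤ (1 - 2δ(1-δ)c)|e|² ≤ (1 - cδ)|e|²` by S_SYM (`δ ≤ 1/2`; `⟨e, e U⟩ =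
⟨e, U e⟩`). Hence `E|e|² ≤ C n` for all `m` (`C = 4d/c`). If `|r - n/d| < θ` and `|n w - n/d| ≥ 2θ` then
`|e| ≥ θ`: Chebyshev. -/
def S_NOISE : Prop := ∀ (d : ℕ) (μ : Equiv.Perm (Fin d) → ℝ), 2 ≤ d → IsProb μ → Irred μ →
  ∃ C : ℝ, 0 < C ∧ ∀ (n k : ℕ), 1 ≤ k → 2 * k ≤ n → ∀ (m : ℕ) (j0 : Fin d) (θ : ℝ), 0 < θ →
    E μ k m (fun u : Ball d n → Fin d =>
      if ∑ l, ((cnt Prod.fst u l j0 : ℝ) - (n : ℝ) / d) ^ 2 < θ ^ 2 then 1 else 0) ≤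
    (KR μ ((k : ℝ) / n))^[m]
      (fun w => if (n : ℝ) ^ 2 * ∑ l, (w l - 1 / (d : ℝ)) ^ 2 < 4 * θ ^ 2 then 1 else 0)
      (Pi.single j0 1) + C * n / θ ^ 2

/-! ### Random products near the identity, abstract setting -/

section Abs
variable {F : Type} [NormedAddCommGroup F] [NormedSpace ℂ F] {ι : Type} [Fintype ι]

/-- `(1 - δ) + δ P s` -/
noncomputable def AA (P : ι → F →L[ℂ] F) (δ : ℝ) (s : ι) : F →L[ℂ] F :=
  ((1 - δ : ℝ) : ℂ) • (1 : F →L[ℂ] F) + ((δ : ℝ) : ℂ) • P s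

/-- Markov operator of the random products acting on functionals -/
noncomputable def KK (P : ι → F →L[ℂ] F) (μ : ι → ℝ) (δ : ℝ) (f : (F →L[ℂ] ℂ) → ℝ)
    (w : F →L[ℂ] ℂ) : ℝ := ∑ s, μ s * f (w.comp (AA P δ s))

/-- the mean of `P` -/
noncomputable def UU (P : ι → F →L[ℂ] F) (μ : ι → ℝ) : F →L[ℂ] F := ∑ s, ((μ s : ℝ) : ℂ) • P s

/-- `exp(-T(1-U))` -/
noncomputable def GG (V : F →L[ℂ] F) (T : ℝ) : F →L[ℂ] F :=
  NormedSpace.exp ((-(T : ℂ)) • ((1 : F →L[ℂ] F) - V))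

/-- the system: contractions, positive weights, eigenvector `v` for an eigenvalue `z` of maximal real
part of the mean, cyclic for the `P s` -/
structure Sys (P : ι → F →L[ℂ] F) (μ : ι → ℝ) (v : F) (z : ℂ) : Prop where
  norm : ∀ s, ‖P s‖ ≤ 1
  pos : ∀ s, 0 < μ s
  sum : ∑ s, μ s = 1
  ne : v ≠ 0
  eig : UU P μ v = z • v
  top : ∀ (z' : ℂ) (x : F), x ≠ 0 → UU P μ x = z' • x → z'.re ≤ z.re
  cyc : ∀ S : Submodule ℂ F, v ∈ S → (∀ s, ∀ x ∈ S, P s x ∈ S) → S = ⊤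

end Abs

/-- SPEC. Splitting in slow and fast parts. Proof: `Q` = projection onto the sum of the generalized
eigenspaces of `V` with `Re = Re z` along the sum of the others (`Module.End.iSup_maxGenEigenspace_eq_top`);
it commutes with `V` hence with `G = exp(-T(1-V))`, and `Q v = v`. On the generalized eigenspace of `z'`,
`exp(-T(1-V)) = e^{-T(1-z')} exp(T N)`, `N` nilpotent, `|exp(±T N)| ≤ C(1+T)^D`. So with
`κ = 1 - Re z`: `|w Q| = |w Q G G⁻¹| ≤ |w Q G| · C(1+T)^D e^{κT}` and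
`|w (1-Q) G| ≤ C(1+T)^D e^{-(κ+gap')T} |w(1-Q)|`, where `gap' > 0` is the distance to the next real part.
Take `ε0 = gap'/4` (any number if there is no fast part) and `T` large. -/
def S_SPEC : Prop := ∀ (F : Type) [NormedAddCommGroup F] [NormedSpace ℂ F] [FiniteDimensional ℂ F]
  (V : F →L[ℂ] F) (v : F) (z : ℂ), v ≠ 0 → V v = z • v →
  (∀ (z' : ℂ) (x : F), x ≠ 0 → V x = z' • x → z'.re ≤ z.re) →
  ∃ ε0 : ℝ, 0 < ε0 ∧ ∀ ε : ℝ, 0 < ε → ε < ε0 → ∃ T : ℝ, 1 ≤ T ∧ ∃ Q : F →L[ℂ] F, Q v = v ∧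
    Q.comp (GG V T) = (GG V T).comp Q ∧
    (∀ w : F →L[ℂ] ℂ, Real.exp (-(1 - z.re + ε) * T) * ‖w.comp Q‖ ≤
      ‖(w.comp Q).comp (GG V T)‖) ∧
    (∀ w : F →L[ℂ] ℂ, ‖(w.comp (1 - Q)).comp (GG V T)‖ ≤
      Real.exp (-(1 - z.re + 3 * ε) * T) * ‖w.comp (1 - Q)‖)

open Classical in
/-- AZ. Concentration of one block. Proof: (1) the mean of `w_m` is `w ∘ ((1-δ) + δV)^m`, `V` the mean of
`P`, and `((1-δ)+δV)^{⌊T/δ⌋} → exp(-T(1-V))` in norm as `δ → 0`. (2) Fix a basis `x_1..x_r` of `F`; it is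
enough to bound `P(|Re (w_m - E w_m)(x)| > η')` for `x = x_i, I x_i`. Let `B = (1-δ)+δV`. For `s` real,
`KK (exp(s Re (·)(B^j x)))(w) ≤ exp(s Re (w B^{j+1} x) + s² c²/2·4)` with `c = 2δ|w||x|`, since
`Re((w ∘ A_s - w ∘ B)(B^j x))` is centred and bounded by `c` (Hoeffding, or `e^y ≤ y + e^{y²}`).
Iterate (`|w|` is nonincreasing): `P(Re(..) > η'|w|) ≤ exp(-s η'|w| + 2 m s² c²)`, choose `s`, with
`m δ² ≤ Tδ`: at most `exp(-c'η'²/(Tδ))`. For `w = 0` the event is empty. -/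
def S_AZ : Prop := ∀ (F : Type) [NormedAddCommGroup F] [NormedSpace ℂ F] [FiniteDimensional ℂ F]
  (ι : Type) [Fintype ι] (P : ι → F →L[ℂ] F) (μ : ι → ℝ), (∀ s, ‖P s‖ ≤ 1) → (∀ s, 0 ≤ μ s) →
  (∑ s, μ s = 1) → ∀ T η : ℝ, 0 < T → 0 < η → ∃ C c δ0 : ℝ, 0 < C ∧ 0 < c ∧ 0 < δ0 ∧
    ∀ δ : ℝ, 0 < δ → δ < δ0 → ∀ w : F →L[ℂ] ℂ,
    (KK P μ δ)^[⌊T / δ⌋₊]
      (fun w' => if η * ‖w‖ < ‖w' - w.comp (GG (UU P μ) T)‖ then 1 else 0) w ≤
      C * Real.exp (-c / δ)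

/-- WORD. Proof: the span of the `P_ω v` (`ω` words) is invariant, so it is everything; finitely many words
(length ≤ D) suffice, so `max_{|ω| ≤ D} |w P_ω v| ≥ c |w|` (compactness/equivalence of norms). As
`P_s = (A_s - (1-δ))/δ`, `max_{|ω| ≤ D} |w A_ω v| ≥ c (δ/2)^D |w|`. For a word `ω` of length `r ≤ D ≤ m` the
probability that the first `r` letters are `ω` is at least `p^D`, `p = min μ`, and then
`E |w_m v| ≥ |E w_m v| = |1 - δ(1-z)|^{m-r} |w A_ω v| ≥ |1-δ(1-z)|^m |w A_ω v|` if `|1-δ(1-z)| ≤ 1`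
(true, as `|z| ≤ 1`). -/
def S_WORD : Prop := ∀ (F : Type) [NormedAddCommGroup F] [NormedSpace ℂ F] [FiniteDimensional ℂ F]
  (ι : Type) [Fintype ι] (P : ι → F →L[ℂ] F) (μ : ι → ℝ) (v : F) (z : ℂ), Sys P μ v z →
  ∃ D : ℕ, ∃ c : ℝ, 0 < c ∧ ∀ δ : ℝ, 0 < δ → δ ≤ 1 / 4 → ∀ m : ℕ, D ≤ m → ∀ w : F →L[ℂ] ℂ,
    c * δ ^ D * ‖1 - (δ : ℂ) * (1 - z)‖ ^ m * ‖w‖ ≤ (KK P μ δ)^[m] (fun w' => ‖w' v‖) w

/-- a Markov operator with finitely many maps -/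
noncomputable def MK {X I : Type} [Fintype I] (p : I → ℝ) (φ : I → X → X) (f : X → ℝ) (x : X) : ℝ :=
  ∑ i, p i * f (φ i x)

open Classical in
/-- HIT. Proof: let `h_L(x)` be the probability to be in `Al` at some time `≤ L` or to make a bad step
before: `h_0 = 1_Al`, `h_{L+1}(x) = 1` if `Al x`, else `∑_{i bad} p_i + ∑_{i good} p_i h_L(φ_i x)`. By
induction on `L`: (a) `K^L zf (x) ≤ V (nrm x h_L(x) + 2 θ^L Nf x)` (case `Al x`: `K^L zf ≤ V nrm x`);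
(b) `K^L 1_Al (x) ≥ h_L(x) - L q` (case `Al x`: `≥ 1 - L q`). -/
def S_HIT : Prop := ∀ (X I : Type) [Fintype I] (p : I → ℝ) (φ : I → X → X) (Al : X → Prop)
  (good : I → X → Prop) (Nf nrm zf : X → ℝ) (q θ V : ℝ), (∀ i, 0 ≤ p i) → (∑ i, p i = 1) →
  0 ≤ q → 0 ≤ θ → 0 ≤ V → (∀ x, 0 ≤ Nf x) → (∀ x, 0 ≤ nrm x) →
  (∀ x, ∑ i, p i * (if good i x then 0 else 1) ≤ q) →
  (∀ x i, Al x → good i x → Al (φ i x)) → (∀ x i, nrm (φ i x) ≤ nrm x) →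
  (∀ x, ¬ Al x → nrm x ≤ 2 * Nf x) → (∀ x i, ¬ Al x → good i x → Nf (φ i x) ≤ θ * Nf x) →
  (∀ x, zf x ≤ V * nrm x) →
  ∀ (L : ℕ) (x : X), (MK p φ)^[L] zf x ≤
    V * nrm x * ((MK p φ)^[L] (fun y => if Al y then 1 else 0) x + L * q) +
      2 * V * θ ^ L * Nf x

open Classical in
/-- BOOK. Proof: `n_b(x) = 1 - K^b 1_Al (x)`. For `Al x`: `n_b ≤ b q`; for all `x`: `n_L(x) ≤ 1 - q'`; so
`n_{b+L}(x) = K^b n_L (x) ≤ L q + (1-q') n_b(x)` and for `Al x` and all `b`: `n_b(x) ≤ Lq + Lq/q' ≤ 2Lq/q'`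
(q' ≤ 1). One step loss `X(x, φ_i x) = (Ψ x - Ψ(φ_i x) - κ)_+ ≤ K1`, and `= 0` if `Al x` and `i` good. As
`(a+b)_+ ≤ a_+ + b_+`, by induction on `M`: `K^M ((Ψ x - Ψ(·) - κM)_+)(x) ≤ ∑_{b<M} K1 (n_b(x) + q) ≤
3 K1 M L q/q'`. Markov. -/
def S_BOOK : Prop := ∀ (X I : Type) [Fintype I] (p : I → ℝ) (φ : I → X → X) (Al : X → Prop)
  (good : I → X → Prop) (Ψ : X → ℝ) (q q' κ K1 : ℝ) (L : ℕ), (∀ i, 0 ≤ p i) → (∑ i, p i = 1) →
  0 ≤ q → 0 < q' → q' ≤ 1 → 0 ≤ κ → 0 ≤ K1 → 1 ≤ L →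
  (∀ x, ∑ i, p i * (if good i x then 0 else 1) ≤ q) →
  (∀ x i, Al x → good i x → Al (φ i x) ∧ Ψ x - κ ≤ Ψ (φ i x)) →
  (∀ x i, Ψ x - K1 ≤ Ψ (φ i x)) →
  (∀ x, q' ≤ (MK p φ)^[L] (fun y => if Al y then 1 else 0) x) →
  ∀ x, Al x → ∀ (M : ℕ) (ζ : ℝ), 0 < ζ →
    (MK p φ)^[M] (fun y => if Ψ y < Ψ x - (κ + ζ) * M then 1 else 0) x ≤
      3 * K1 * L * q / (q' * ζ)

open Classical in
/-- RP. Random products decay at the rate of the mean (uses S_SPEC, S_AZ, S_WORD, S_HIT, S_BOOK).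
Proof: it is enough to take `ε` small. `κ0 = 1 - Re z ≥ 0`. Take `T, Q` from S_SPEC (for `ε/8`, say `ε'`),
`G = GG U T`, `m = ⌊T/δ⌋`. `Ns w = |w Q|`, `Nf w = |w (1-Q)|`, `Al w`: `Nf w ≤ Ns w`; `C_Q ≥ |Q|, |1-Q|`.
A block is good for `w` if `|w' - w G| ≤ η|w|`, η small: then `Al w` implies `Ns w' ≥ e^{-(κ0+2ε')T} Ns w`,
`Nf w' ≤ Ns w'`; and `¬Al w` implies `Nf w' ≤ θ Nf w`, `θ = e^{-(κ0+2ε')T}` (`|w| ≤ 2 max(Ns,Nf)`, and
`e^{-(κ0+3ε')T} + 2C_Q η ≤ e^{-(κ0+2ε')T} ≤ e^{-(κ0+ε')T} - 2 C_Q η`). `q = C exp(-c/δ)` from S_AZ.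
`KK^[m]` is `MK` for the products of `m` factors; `|w'| ≤ |w|` and `|w'| ≥ (1-2δ)^m |w| ≥ e^{-4T}|w|`
(`δ ≤ 1/4`). S_HIT with `nrm = |·|`, `zf w = |w v|`, `V = |v|`, and S_WORD, and
`|1-δ(1-z)|^m ≥ e^{-(κ0+ε')T}` for δ small give for `w ≠ 0` (X = nonzero functionals):
`K^L 1_Al (w) ≥ (c/|v|) δ^D e^{-(κ0+ε')TL} - 2 C_Q θ^L - L q =: q'`; with
`L = ⌈(D+1) log(1/δ)/(ε' T)⌉`, `θ^L ≤ e^{-(κ0+ε')TL} δ^{D+1}`, so `q' ≥ δ^{C3}` for small δ.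
S_BOOK with `Ψ w = log Ns w` if `Al w`, `log |w|` otherwise, `κ = (κ0+2ε')T`, `K1 = 4T + log(2 C_Q) + ...`,
`ζ = ε' T`: `3 K1 L q/(q' ζ) → 0`. Start: `w0 v ≠ 0` gives `Ns w0 > 0`, and `w0 G^{K0}` satisfies
`Nf ≤ Ns/2` for a fixed large `K0`; by S_AZ with `K0 T` (`G^{K0} = GG U (K0 T)`) the functional
`w_{⌊K0T/δ⌋}` satisfies `Al` and has norm at least a constant, with probability → 1. For a time `j`
not of the form `⌊K0T/δ⌋ + M m` use that the norm is nonincreasing (next such time; `C0` absorbs this). -/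
def S_RP : Prop := ∀ (F : Type) [NormedAddCommGroup F] [NormedSpace ℂ F] [FiniteDimensional ℂ F]
  (ι : Type) [Fintype ι] (P : ι → F →L[ℂ] F) (μ : ι → ℝ) (v : F) (z : ℂ), Sys P μ v z →
  ∀ w0 : F →L[ℂ] ℂ, w0 v ≠ 0 → ∀ ε : ℝ, 0 < ε → ∃ δ0 C0 : ℝ, 0 < δ0 ∧
    ∀ δ : ℝ, 0 < δ → δ < δ0 → ∀ j : ℕ,
    (KK P μ δ)^[j] (fun w => if ‖w‖ < Real.exp (-(1 - z.re + ε) * δ * j - C0) then 1 else 0) w0 ≤ ε

open Classical in
/-- RPC (uses S_RP, S_GAP). Proof: `z, v` from S_GAP, `v_{j0} ≠ 0`; `ι = {σ // 0 < μ σ}`; operators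
`(P_σ y) i = y (σ i)` on `Fin d → ℂ` (sup norm, isometries), `F` = span of all `P_ω v` (contained in the zero
sum vectors). A row vector `w` gives the functional `y ↦ ∑ w_l y_l` on `F`; `w A(σ)` gives the composition.
For `y ∈ F`: `|∑ w_l y_l| = |∑ (w_l - 1/d) y_l| ≤ |y|_∞ √d (∑ (w_l-1/d)²)^{1/2}`. -/
def S_RPC : Prop := ∀ (d : ℕ) (μ : Equiv.Perm (Fin d) → ℝ), 2 ≤ d → IsProb μ → Irred μ →
  ∃ j0 : Fin d, ∀ ε : ℝ, 0 < ε → ∃ δ0 C0 : ℝ, 0 < δ0 ∧ ∀ δ : ℝ, 0 < δ → δ < δ0 → ∀ j : ℕ,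
    (KR μ δ)^[j] (fun w => if ∑ l, (w l - 1 / (d : ℝ)) ^ 2 <
      Real.exp (-2 * (gap μ + ε) * δ * j - C0) then 1 else 0) (Pi.single j0 1) ≤ ε

/-- LOWER (uses S_NOISE, S_RPC, S_STATVAR, S_GAP, S_A1). Proof: `F = {x : θ² ≤ ∑_l (x l j0 - n/d)²}`,
`θ = n^{1/2+η/8}`; `stat F ≤ d n/θ² → 0`. `E(1 - 1_F)` is bounded by S_NOISE; S_RPC with `ε'` small: with
`δ = k/n`, `δ m ≤ (1-η) log n/(2γ)` gives `exp(-2(γ+ε')δm - C0) n² ≥ n^{1+η/2} e^{-C0} ≥ 4 θ²`. -/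
def S_LOWER : Prop := ∀ (d : ℕ) (μ : Equiv.Perm (Fin d) → ℝ), 2 ≤ d → IsProb μ → Irred μ →
  ∀ k : ℕ → ℕ, (∀ n, 1 ≤ n → 1 ≤ k n ∧ k n ≤ n) →
  Tendsto (fun n => (k n : ℝ) / n) atTop (𝓝 0) → ∀ η ε : ℝ, 0 < η → η < 1 → 0 < ε →
  ∀ᶠ n : ℕ in atTop, ∃ F : Set (Fin d → Fin d → ℕ), stat d n F ≤ ε ∧
    ∀ m : ℕ, (m : ℝ) ≤ (1 - η) * (n * Real.log n / (2 * k n * gap μ)) →
      1 - ε ≤ E μ (k n) m
        (fun u : Ball d n → Fin d => F.indicator (fun _ => (1 : ℝ)) (cnt Prod.fst u))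

/-! ### Upper bound -/

/-- SPECU (uses S_GAP). Proof: on zero sum row vectors (l1 norm) the spectral radius of `exp(-(1-U))` is
`e^{-γ}`, so by Gelfand's formula `|y exp(-T(1-U))|₁ ≤ (1/2) e^{-(γ-ε)T} |y|₁` for some natural `T ≥ 1`; and
`((1-δ)+δU)^{⌊T/δ⌋} → exp(-T(1-U))` as `δ → 0`. -/
def S_SPECU : Prop := ∀ (d : ℕ) (μ : Equiv.Perm (Fin d) → ℝ), 2 ≤ d → IsProb μ → Irred μ →
  ∀ ε : ℝ, 0 < ε → ∃ T δ0 : ℝ, 1 ≤ T ∧ 0 < δ0 ∧ ∀ δ : ℝ, 0 < δ → δ < δ0 →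
    ∀ y : Fin d → ℝ, ∑ i, y i = 0 →
      ∑ j, |Matrix.vecMul y ((AU μ δ) ^ ⌊T / δ⌋₊) j| ≤
        Real.exp (-(gap μ - ε) * T) * ∑ j, |y j|

/-- MATCH. Proof: in urn `i` there are `x i j` and `x' i j` balls of colour `j`; give colour `j` to
`min (x i j) (x' i j)` common balls for each `j`; the number of other balls is
`n - ∑_j min = (1/2) ∑_j |x i j - x' i j|`. -/
def S_MATCH : Prop := ∀ (d n : ℕ) (c c' : Ball d n → Fin d), Bal c → Bal c' →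
  ∃ c1 c1' : Ball d n → Fin d, Bal c1 ∧ Bal c1' ∧ cnt c1 Prod.fst = cnt c Prod.fst ∧
    cnt c1' Prod.fst = cnt c' Prod.fst ∧
    (dif c1 c1' : ℝ) ≤ ell (cnt c Prod.fst) (cnt c' Prod.fst)

/-- CONTR (uses S_A1, S_B1, S_B2, S_SPECU). Proof: for fixed `l, j`, `cnt c u l j - cnt c' u l j =
∑_b (1{c b = j} - 1{c' b = j}) 1{u b = l}`, its mean is `(y_j (AU)^m)_l`, `y_j(i) = cnt c fst i j -
cnt c' fst i j` (zero sum over `i`), and by Cauchy–Schwarz the mean absolute deviation is at most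
`(4 m (δD+δ²D²))^{1/2} ≤ 2√T (√D + √δ D)`, `D = dif ≤ ell`. Sum over `l, j`: at most
`e^{-(γ-ε')T} ell + 2d²√T(√ell + √δ ell)`; `√ell ≤ θ ell + 1/(4θ)`; take `ε' < ε`, θ, δ0 small. -/
def S_CONTR : Prop := ∀ (d : ℕ) (μ : Equiv.Perm (Fin d) → ℝ), 2 ≤ d → IsProb μ → Irred μ →
  ∀ ε : ℝ, 0 < ε → ∃ T δ0 C : ℝ, 1 ≤ T ∧ 0 < δ0 ∧ 0 < C ∧ ∀ (n k : ℕ), 1 ≤ k → k ≤ n →
    (k : ℝ) / n < δ0 → ∀ c c' : Ball d n → Fin d, Bal c → Bal c' →
    (dif c c' : ℝ) ≤ ell (cnt c Prod.fst) (cnt c' Prod.fst) →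
    E μ k ⌊T / ((k : ℝ) / n)⌋₊ (fun u => ell (cnt c u) (cnt c' u)) ≤
      Real.exp (-(gap μ - ε) * T) * ell (cnt c Prod.fst) (cnt c' Prod.fst) + C

/-- ITER (uses S_A1, S_A2, S_A4, S_MATCH). Proof: induction on `b`. Replace `c, c'` by the `c1, c1'` of
S_MATCH (S_A2: nothing changes). `E((b+1)m+r)(f ∘ cnt c1) = E m (g ∘ cnt c1)` with `g` the value after
`bm+r` (S_A4), and the same for `c1'` with the same `u`; so the difference is at most `E m` of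
`|g(cnt c1 u) - g(cnt c1' u)|`, apply the induction hypothesis to colourings with these counts (for
balanced `u = fst ∘ ρ`: `cnt c1 u = cnt (c1 ∘ ρ⁻¹) fst`), then the hypothesis on `m`:
`Lc(ρ^b (ρ ell + C) + ∑_{i<b} ρ^i C)`; and `E m (E(bm)(β ∘ cnt ·))(cnt c1' u) = E((b+1)m)(β ∘ cnt c1')`. -/
def S_ITER : Prop := ∀ (d n k : ℕ) (μ : Equiv.Perm (Fin d) → ℝ), IsProb μ → k ≤ n →
  ∀ (m r : ℕ) (ρ C Lc ν : ℝ) (f β : (Fin d → Fin d → ℕ) → ℝ), 0 ≤ ρ → ρ < 1 → 0 ≤ C → 0 ≤ Lc →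
  0 ≤ ν → (∀ x, 0 ≤ β x) →
  (∀ c c' : Ball d n → Fin d, Bal c → Bal c' →
    (dif c c' : ℝ) ≤ ell (cnt c Prod.fst) (cnt c' Prod.fst) →
    E μ k m (fun u => ell (cnt c u) (cnt c' u)) ≤
      ρ * ell (cnt c Prod.fst) (cnt c' Prod.fst) + C) →
  (∀ c c' : Ball d n → Fin d, Bal c → Bal c' →
    |E μ k r (fun u => f (cnt c u)) - E μ k r (fun u => f (cnt c' u))| ≤
      Lc * ell (cnt c Prod.fst) (cnt c' Prod.fst) + ν + β (cnt c' Prod.fst)) →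
  ∀ (b : ℕ) (c c' : Ball d n → Fin d), Bal c → Bal c' →
    |E μ k (b * m + r) (fun u => f (cnt c u)) - E μ k (b * m + r) (fun u => f (cnt c' u))| ≤
      Lc * (ρ ^ b * ell (cnt c Prod.fst) (cnt c' Prod.fst) + C / (1 - ρ)) + ν +
        E μ k (b * m) (fun u => β (cnt c' u))

/-- BINOM. Proof: `x ↦ M.choose x` increases up to `M/2` and then decreases, so the sum is
`2 M.choose (M/2) ≤ 2 · 2^M/√(M+1)` (known bound of the central binomial coefficient by induction: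
`choose(2h,h)² (2h+1) ≤ 16^h`, and `choose(2h+1,h) = choose(2h+2,h+1)/2`). -/
def S_BINOM : Prop := ∀ M : ℕ,
  ∑ x ∈ range (M + 2), |((M.choose x : ℕ) : ℝ) - (if x = 0 then 0 else ((M.choose (x - 1) : ℕ) : ℝ))|
    ≤ 2 ^ M * (2 / √((M : ℝ) + 1))

open Classical in
/-- SM1 (uses S_A1, S_A2, S_BINOM). One swap of colours. `b1` in urn `i` has colour `j`, `b2` is in another
urn and has colour `j' ≠ j`; `c' = c ∘ swap b1 b2`. Pairs of balls `(p r, q r)` of urn `i`, all different,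
different from `b1`, `p r` of colour `j`, `q r` of colour `j'`. Proof: by S_A2 average over the `2^R`
products of the swaps of `p r` and `q r` (`g` is invariant). Fix `u`, `l = u b1`, `l' = u b2`. If `l = l'`
then `cnt c u = cnt c' u`. Otherwise the pairs with `{u (p r), u (q r)} = {l, l'}` (there are `M(u)`)
contribute, all other swaps being fixed, `cnt c (u ∘ swaps) = N0 + X w`, `w = e_{l j} - e_{l j'} - e_{l' j}
+ e_{l' j'}`, `X` binomial(M,1/2), and `cnt c' = cnt c - w`. So the difference of the means of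
`f (cnt c)` and `f (cnt c')` is at most `∑_x |P(X = x) - P(X = x-1)| ≤ 2/√(M+1)`. -/
def S_SM1 : Prop := ∀ (d n k : ℕ) (μ : Equiv.Perm (Fin d) → ℝ), IsProb μ → k ≤ n →
  ∀ (m R : ℕ) (c : Ball d n → Fin d) (b1 b2 : Ball d n) (p q : Fin R → Ball d n)
    (g : (Ball d n → Fin d) → ℝ) (f : (Fin d → Fin d → ℕ) → ℝ),
  b1.1 ≠ b2.1 → c b1 ≠ c b2 →
  Function.Injective p → Function.Injective q →
  (∀ r, (p r).1 = b1.1 ∧ (q r).1 = b1.1 ∧ p r ≠ b1 ∧ c (p r) = c b1 ∧ c (q r) = c b2) →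
  (∀ u, 0 ≤ g u) → (∀ (ρ : Equiv.Perm (Ball d n)), (∀ b, (ρ b).1 = b.1) → ∀ u, g (u ∘ ρ) = g u) →
  (∀ x, 0 ≤ f x ∧ f x ≤ 1) →
  |E μ k m (fun u => g u * (f (cnt c u) - f (cnt (c ∘ Equiv.swap b1 b2) u)))| ≤
    E μ k m (fun u => g u * (if u b1 = u b2 then 0 else
      2 / √(((univ.filter fun r => (u (p r) = u b1 ∧ u (q r) = u b2)).card : ℝ) + 1)))

open Classical in
/-- HG (uses S_A1, S_A2). `W` a set of balls of one urn. Proof: average over the permutations `ρ` of `W`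
(S_A2; `Φ` and `K` are invariant): for fixed `u`, with `κ = kap W u l`, `w = |W|`, `kk = |K u|`: the mean
over `ρ` of `(#{b ∈ K : u (ρ b) = l} - kk κ/w)²` is `kk (κ/w)(1-κ/w)(w-kk)/(w-1) ≤ kk`. -/
def S_HG : Prop := ∀ (d n k : ℕ) (μ : Equiv.Perm (Fin d) → ℝ), IsProb μ → k ≤ n →
  ∀ (m : ℕ) (i l : Fin d) (W : Finset (Ball d n)) (K : (Ball d n → Fin d) → Finset (Ball d n))
    (Φ : (Ball d n → Fin d) → ℝ), (∀ b ∈ W, b.1 = i) → (∀ u, K u ⊆ W) → (∀ u, 0 ≤ Φ u) →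
  (∀ (ρ : Equiv.Perm (Ball d n)), (∀ b, b ∉ W → ρ b = b) → ∀ u, K (u ∘ ρ) = K u ∧ Φ (u ∘ ρ) = Φ u) →
  E μ k m (fun u => Φ u * ((kap (K u) u l : ℝ) - ((K u).card : ℝ) * kap W u l / (W.card : ℝ)) ^ 2) ≤
    E μ k m (fun u => Φ u * ((K u).card : ℝ))

open Classical in
/-- MX (uses S_A1, S_HG). Let `α n ≤ flow u i l` for all `l` on the event `g = 1`. Proof: `P = {p r}`.
S_HG with `W` = urn `i`, `K = P` (`|P| = R`): `kap P u l ≥ αR/2` except on an event of probability (times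
`g`) `≤ R/(αR/2)² ≤ C/n`; with `K = W2 := urn i \ P` (`|W2| = n - R ≥ n/2`): `kap W2 u l' ≥ α n/4` except
`C/n`. Then S_HG with `W = W2`, `K u = {q r : u (p r) = l}` (does not change under permutations of `W2`,
`q r ∈ W2`), Φ = g times the indicator that `|K u| ≥ αR/2`, `kap W2 u l' ≥ αn/4`: `kap (K u) u l' ≥
(αR/2)(α/4)/2` except `C/n`. -/
def S_MX : Prop := ∀ (d : ℕ) (α β : ℝ), 0 < α → 0 < β → ∃ C c : ℝ, 0 < C ∧ 0 < c ∧
  ∀ (n k : ℕ) (μ : Equiv.Perm (Fin d) → ℝ), IsProb μ → k ≤ n → 1 ≤ n →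
  ∀ (m R : ℕ) (i l l' : Fin d) (p q : Fin R → Ball d n), β * n ≤ R → 2 * R ≤ n →
  Function.Injective p → Function.Injective q → (∀ r s, p r ≠ q s) →
  (∀ r, (p r).1 = i ∧ (q r).1 = i) →
  E μ k m (fun u => if (∀ i' l'', α * n ≤ flow u i' l'') ∧
      ((univ.filter fun r => (u (p r) = l ∧ u (q r) = l')).card : ℝ) < c * n then 1 else 0) ≤ C / n

/-- POSM. Proof: as `δ → 0` the matrix converges to `exp(-(1-U))`, whose entries are at least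
`e^{-1} (U^r) i l/r! > 0` for some `r` (irreducibility). -/
def S_POSM : Prop := ∀ (d : ℕ) (μ : Equiv.Perm (Fin d) → ℝ), IsProb μ → Irred μ →
  ∃ α δ0 : ℝ, 0 < α ∧ 0 < δ0 ∧ ∀ δ : ℝ, 0 < δ → δ < δ0 → ∀ i l,
    2 * α ≤ ((AU μ δ) ^ ⌊1 / δ⌋₊) i l

open Classical in
/-- FG (uses S_A1, S_B1, S_B2, S_POSM). Proof: `flow u i l = ∑_b 1{b.1 = i} 1{u b = l}` has mean
`n (AU^m) i l ≥ 2αn` and variance at most `4 m (δn + δ²n²) ≤ 4(n + δ n²)`; Chebyshev, union over `i, l`. -/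
def S_FG : Prop := ∀ (d : ℕ) (μ : Equiv.Perm (Fin d) → ℝ), 2 ≤ d → IsProb μ → Irred μ →
  ∃ α δ0 C : ℝ, 0 < α ∧ 0 < δ0 ∧ 0 < C ∧ ∀ (n k : ℕ), 1 ≤ k → k ≤ n → (k : ℝ) / n < δ0 →
    E μ k ⌊1 / ((k : ℝ) / n)⌋₊ (fun u : Ball d n → Fin d =>
      if ∀ i l, α * n ≤ flow u i l then 0 else 1) ≤ C * ((k : ℝ) / n + 1 / n)

/-- PATH. Proof: induction on `dif c c'`. If it is positive, take `b1` with `c b1 ≠ c' b1`; as
both colourings use colour `c' b1` exactly `n` times, there is `b2` with `c b2 = c' b1 ≠ c' b2`; swapping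
the colours of `b1` and `b2` in `c` decreases `dif` by at least one (position `b1` becomes right, `b2` was
wrong). -/
def S_PATH : Prop := ∀ (d n : ℕ) (c c' : Ball d n → Fin d), Bal c → Bal c' →
  ∃ (N : ℕ) (s : ℕ → Ball d n → Fin d), N ≤ dif c c' ∧ s 0 = c ∧ s N = c' ∧
    (∀ t, t ≤ N → Bal (s t) ∧ ∀ b, c b = c' b → s t b = c' b) ∧
    ∀ t, t < N → ∃ b1 b2, s t b1 ≠ s t b2 ∧ s (t + 1) = s t ∘ Equiv.swap b1 b2

/-- SMOOTH (uses S_A1, S_A2, S_FG, S_MX, S_SM1, S_PATH, S_MATCH). Proof: `r = ⌊1/δ⌋`. By S_MATCH, S_A2 assume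
`dif c c' ≤ ell`. If `ell > n/(8d)` or `n` is small the bound is trivial for `C` large (left side ≤ 1,
`√n ≤ n`). Let `g = 1{flow u i l ≥ α n for all i, l}` (invariant); `P(g = 0) ≤ C(δ+1/n)` by S_FG. Along the path
of S_PATH (at most `ell` swaps): if the two balls are in the same urn at time 0 nothing changes (S_A2);
otherwise apply S_SM1 with `R = ⌈n/(8d)⌉`-ish pairs of urn `i = b1.1`: each colour has at least
`n/(2d) - n/(8d) ≥ n/(4d)` balls in urn `i` for the colouring `s t` (it differs from `c'` on at most `dif` balls),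
and S_MX for each pair `l ≠ l'`: the bound is `2/√(c n) + d² C/n ≤ C'/√n` per swap. -/
def S_SMOOTH : Prop := ∀ (d : ℕ) (μ : Equiv.Perm (Fin d) → ℝ), 2 ≤ d → IsProb μ → Irred μ →
  ∃ C δ0 : ℝ, 0 < C ∧ 0 < δ0 ∧ ∀ (n k : ℕ), 1 ≤ k → k ≤ n → (k : ℝ) / n < δ0 →
    ∀ c c' : Ball d n → Fin d, Bal c → Bal c' → (∀ i j, (n : ℝ) ≤ 2 * d * cnt c' Prod.fst i j) →
    ∀ f : (Fin d → Fin d → ℕ) → ℝ, (∀ x, 0 ≤ f x ∧ f x ≤ 1) →
    |E μ k ⌊1 / ((k : ℝ) / n)⌋₊ (fun u => f (cnt c u)) -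
      E μ k ⌊1 / ((k : ℝ) / n)⌋₊ (fun u => f (cnt c' u))| ≤
      C * ell (cnt c Prod.fst) (cnt c' Prod.fst) / √(n : ℝ) + C * ((k : ℝ) / n + 1 / n)

open Classical in
/-- UPPER (uses S_A1, S_A2, S_A4, S_A5, S_STATVAR, S_GAP, S_CONTR, S_SMOOTH, S_ITER). Proof: `δ = k/n`. S_CONTR
with `ε'` small (`< γ/2`): `T`, `m0 = ⌊T/δ⌋`, `ρ = e^{-(γ-ε')T} < 1`; S_SMOOTH: `r = ⌊1/δ⌋`; `β x = 1` if
`2 d x i j < n` for some `i j`, else `0` (then the hypothesis of S_ITER holds with `Lc = C/√n`,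
`ν = C(δ+1/n)`, left side ≤ 1). `b = ⌈(1/2+ε'') log n/((γ-ε')T)⌉`: `ρ^b ≤ n^{-1/2-ε''}`, `ell ≤ 2dn`: the bound
is `C(2d n^{-ε''} + C'/√n) + ν + E(b m0)(β ∘ cnt c')`; average over all balanced `c'` (S_A5): the last
term becomes `stat {β = 1} ≤ 4 d^4/n` (S_STATVAR, Chebyshev) and `E(β-free part)` becomes `stat F`.
Total time `b m0 + r ≤ (1/2+2ε'') log n/((γ-ε')δ) + T/δ + 1/δ ≤ (1+η) log n/(2γδ)` for n large. For larger
`m` write `m = s + (b m0 + r)` and use S_A4 (the bound holds uniformly over balanced colourings). -/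
def S_UPPER : Prop := ∀ (d : ℕ) (μ : Equiv.Perm (Fin d) → ℝ), 2 ≤ d → IsProb μ → Irred μ →
  ∀ k : ℕ → ℕ, (∀ n, 1 ≤ n → 1 ≤ k n ∧ k n ≤ n) →
  Tendsto (fun n => (k n : ℝ) / n) atTop (𝓝 0) → ∀ η ε : ℝ, 0 < η → η < 1 → 0 < ε →
  ∀ᶠ n : ℕ in atTop, ∀ m : ℕ, (1 + η) * (n * Real.log n / (2 * k n * gap μ)) ≤ (m : ℝ) →
    ∀ (c : Ball d n → Fin d), Bal c → ∀ F : Set (Fin d → Fin d → ℕ),
      |E μ (k n) m (fun u => F.indicator (fun _ => (1 : ℝ)) (cnt c u)) - stat d n F| ≤ ε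

/-! ### Conclusion -/

open Classical in
/-- POIS. Chebyshev for the Poisson distribution (mean `t`, variance `t`), with summability. -/
def S_POIS : Prop := ∀ (t a : ℝ), 0 ≤ t → 0 < a →
  (Summable fun m : ℕ => Real.exp (-t) * t ^ m / (m.factorial : ℝ)) ∧
  (∑' m : ℕ, Real.exp (-t) * t ^ m / (m.factorial : ℝ) = 1) ∧
  ∑' m : ℕ, Real.exp (-t) * t ^ m / (m.factorial : ℝ) * (if a ≤ |(m : ℝ) - t| then 1 else 0) ≤
    t / a ^ 2

/-- FINAL (uses S_A1, S_GAP, S_LOWER, S_UPPER, S_POIS). Proof: `T_n = n log n/(2 k_n γ) → ∞`. `dmax` is a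
supremum of a bounded family (values in [0,1]). Upper: at `t = (1+2η)T_n`, `P(Poisson(t) < (1+η)T_n) → 0`,
so `dmax ≤ 2ε'` eventually. Lower: for `0 ≤ t ≤ (1-2η)T_n`, `P(Poisson(t) > (1-η)T_n) ≤ t/(ηT_n)² ≤
1/(η²T_n) → 0`, so `dmax ≥ law F - stat F ≥ (1-ε')(1-ε') - ε'` for the colouring `fst` (balanced).
Hence for `ε ∈ (0,1)`: `(1-2η)T_n ≤ tmix ε ≤ (1+2η)T_n` eventually. Second part: apply the first to
`k = 1` and divide. -/
def S_FINAL : Prop := ∀ (d : ℕ) (μ : Equiv.Perm (Fin d) → ℝ), 2 ≤ d → IsProb μ → Irred μ →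
  0 < gap μ ∧ ∀ k : ℕ → ℕ, (∀ n, 1 ≤ n → 1 ≤ k n ∧ k n ≤ n) →
  Tendsto (fun n => (k n : ℝ) / n) atTop (𝓝 0) →
  (∀ ε : ℝ, 0 < ε → ε < 1 →
    Tendsto (fun n : ℕ => tmix μ n (k n) ε / (n * Real.log n / (2 * k n * gap μ))) atTop (𝓝 1)) ∧
  (∀ ε ε' : ℝ, 0 < ε → ε < 1 → 0 < ε' → ε' < 1 →
    Tendsto (fun n : ℕ => tmix μ n (k n) ε / (tmix μ n 1 ε' / k n)) atTop (𝓝 1)) ∧
  (∀ ε : ℝ, 0 < ε → ε < 1 →
    Tendsto (fun n : ℕ => tmix μ n (k n) ε / tmix μ n (k n) (1 - ε)) atTop (𝓝 1))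

end Pool.Agent.H979.BK
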