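import Pool.Agent.H111.BKA1
import Pool.Agent.H972.BKA2
import Pool.Agent.H176.BKA4
import Pool.Agent.H824.BKB1
import Pool.Agent.H719.BKB2
import Pool.Agent.H284.BKGAP
import Pool.Agent.H233.BKSYM
import Pool.Agent.H299.BKSTATVAR
import Pool.Agent.H340.BKNOISE
import Pool.Agent.H767.BKSPEC
import Pool.Agent.H94.BKAZ
import Pool.Agent.H161.BKWORD
import Pool.Agent.H179.BKHIT
import Pool.Agent.H505.BKBOOK
import Pool.Agent.H152.BKRP
import Pool.Agent.H710.BKRPC
import Pool.Agent.H400.BKLOWER
import Pool.Agent.H117.BKSPECU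
import Pool.Agent.H630.BKMATCH
import Pool.Agent.H397.BKCONTR
import Pool.Agent.H213.BKITER
import Pool.Agent.H349.BKBINOM
import Pool.Agent.H895.BKSM1
import Pool.Agent.H127.BKHG
import Pool.Agent.H484.BKMX
import Pool.Agent.H116.BKPOSM
import Pool.Agent.H104.BKFG
import Pool.Agent.H104.BKPATH
import Pool.Agent.H336.BKSMOOTH
import Pool.Agent.H597.BKUPPER
import Pool.Agent.H981.BKPOIS
import Pool.Agent.H86.BKFINAL

/-! # Project BK: assembly -/

namespace Pool.Agent.H979.BK

theorem final_all : S_FINAL := by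
  have a1 := Pool.Agent.H111.bk_a1
  have a2 := Pool.Agent.H972.bk_a2
  have a4 := Pool.Agent.H176.bk_a4 a1
  have a5 := Pool.Agent.H176.bk_a5 a1
  have b1 := Pool.Agent.H824.bk_b1
  have b2 : S_B2 := Pool.Agent.H719.bk_b2 a1
  have gap := Pool.Agent.H284.bk_gap
  have sym := Pool.Agent.H233.bk_sym
  have sv := Pool.Agent.H299.bk_statvar
  have noise : S_NOISE := Pool.Agent.H340.bk_noise sym
  have spec := Pool.Agent.H767.bk_spec
  have az : S_AZ := Pool.Agent.H94.bk_az
  have word := Pool.Agent.H161.bk_word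
  have hit := Pool.Agent.H179.bk_hit
  have book := Pool.Agent.H505.bk_book
  have rp : S_RP := Pool.Agent.H152.bk_rp spec az word hit book
  have rpc := Pool.Agent.H710.bk_rpc rp gap
  have lower := Pool.Agent.H400.bk_lower a1 gap sv noise rpc
  have specu := Pool.Agent.H117.bk_specu gap
  have mat := Pool.Agent.H630.bk_match
  have contr := Pool.Agent.H397.bk_contr a1 b1 b2 specu
  have iter := Pool.Agent.H213.bk_iter a1 a2 a4 mat
  have binom := Pool.Agent.H349.bk_binom
  have sm1 := Pool.Agent.H895.bk_sm1 a1 a2 binom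
  have hg := Pool.Agent.H127.bk_hg a1 a2
  have mx := Pool.Agent.H484.bk_mx a1 hg
  have posm := Pool.Agent.H116.bk_posm
  have fg := Pool.Agent.H104.bk_fg a1 b2 posm
  have path := Pool.Agent.H104.bk_path
  have smooth := Pool.Agent.H336.bk_smooth a1 a2 fg mx sm1 path mat
  have upper := Pool.Agent.H597.bk_upper a1 a2 a4 a5 sv gap contr smooth iter
  have pois := Pool.Agent.H981.bk_pois
  exact Pool.Agent.H86.bk_final a1 gap lower upper pois

end Pool.Agent.H979.BK
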