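import Mathlib

/-! # The balanced multi-urn chain moving `k` balls per urn (MP_1e2081_pr): definitions -/

open Filter Topology Finset

namespace Pool.Agent.H979.BK

/-- the balls: `(i, a)` is the `a`-th ball of urn `i` at time `0` -/
abbrev Ball (d n : ℕ) := Fin d × Fin n

/-- every value is taken by exactly `n` balls (for a placement of the balls in the urns: each urn
holds `n` balls; for a colouring: there are `n` balls of each colour) -/
def Bal {d n : ℕ} (u : Ball d n → Fin d) : Prop :=
  ∀ i, (univ.filter fun b => u b = i).card = n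

/-- the sets of balls which contain exactly `k` balls of every urn (placement `u`) -/
def sel {d n : ℕ} (k : ℕ) (u : Ball d n → Fin d) : Finset (Finset (Ball d n)) :=
  univ.filter fun A => ∀ i, (A.filter fun b => u b = i).card = k

/-- the balls of `A` are moved: those in urn `i` go to urn `σ i` -/
def move {d n : ℕ} (σ : Equiv.Perm (Fin d)) (A : Finset (Ball d n)) (u : Ball d n → Fin d) :
    Ball d n → Fin d :=
  fun b => if b ∈ A then σ (u b) else u b

/-- expected value of `f` after one move with the permutation `σ`: the set of moved balls is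
uniform in `sel k u`, i.e. independently for each urn a uniformly random set of `k` of its balls -/
noncomputable def Ts {d n : ℕ} (k : ℕ) (σ : Equiv.Perm (Fin d)) (f : (Ball d n → Fin d) → ℝ)
    (u : Ball d n → Fin d) : ℝ :=
  (∑ A ∈ sel k u, f (move σ A u)) / ((sel k u).card : ℝ)

/-- expected value of `f` after one move, the permutation is sampled from `μ` -/
noncomputable def T {d n : ℕ} (μ : Equiv.Perm (Fin d) → ℝ) (k : ℕ) (f : (Ball d n → Fin d) → ℝ)
    (u : Ball d n → Fin d) : ℝ :=
  ∑ σ, μ σ * Ts k σ f u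

/-- expected value of `f` after `m` moves, at the start ball `(i, a)` is in urn `i` -/
noncomputable def E {d n : ℕ} (μ : Equiv.Perm (Fin d) → ℝ) (k m : ℕ)
    (f : (Ball d n → Fin d) → ℝ) : ℝ :=
  ((T μ k)^[m] f) Prod.fst

/-- the matrix of counts: number of balls of colour `j` in urn `l` (colouring `c`, placement `u`) -/
def cnt {d n : ℕ} (c u : Ball d n → Fin d) (l j : Fin d) : ℕ :=
  (univ.filter fun b => u b = l ∧ c b = j).card

/-- probability that the matrix of counts is in `F` at time `t` for the continuous time chain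
(moves at rate `1`), when the balls are coloured by `c` -/
noncomputable def law {d n : ℕ} (μ : Equiv.Perm (Fin d) → ℝ) (k : ℕ) (c : Ball d n → Fin d)
    (t : ℝ) (F : Set (Fin d → Fin d → ℕ)) : ℝ :=
  ∑' m : ℕ, Real.exp (-t) * t ^ m / (m.factorial : ℝ) *
    E μ k m (fun u => F.indicator (fun _ => (1 : ℝ)) (cnt c u))

open Classical in
/-- the stationary law of the matrix of counts: uniformly random balanced colouring -/
noncomputable def stat (d n : ℕ) (F : Set (Fin d → Fin d → ℕ)) : ℝ :=
  (∑ c ∈ univ.filter (fun c : Ball d n → Fin d => Bal c),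
    F.indicator (fun _ => (1 : ℝ)) (cnt c Prod.fst)) /
    ((univ.filter (fun c : Ball d n → Fin d => Bal c)).card : ℝ)

/-- maximum over the starting states of the total variation distance to stationarity at time `t` -/
noncomputable def dmax {d : ℕ} (μ : Equiv.Perm (Fin d) → ℝ) (n k : ℕ) (t : ℝ) : ℝ :=
  ⨆ p : {c : Ball d n → Fin d // Bal c} × Set (Fin d → Fin d → ℕ),
    |law μ k p.1.1 t p.2 - stat d n p.2|

/-- mixing time -/
noncomputable def tmix {d : ℕ} (μ : Equiv.Perm (Fin d) → ℝ) (n k : ℕ) (ε : ℝ) : ℝ :=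
  sInf {t : ℝ | 0 ≤ t ∧ dmax μ n k t ≤ ε}

/-- `U i j = P(σ i = j)` -/
noncomputable def U {d : ℕ} (μ : Equiv.Perm (Fin d) → ℝ) : Matrix (Fin d) (Fin d) ℝ :=
  fun i j => ∑ σ, if σ i = j then μ σ else 0

/-- `μ` is a probability distribution -/
def IsProb {d : ℕ} (μ : Equiv.Perm (Fin d) → ℝ) : Prop := (∀ σ, 0 ≤ μ σ) ∧ ∑ σ, μ σ = 1

/-- the matrix `U` is irreducible -/
def Irred {d : ℕ} (μ : Equiv.Perm (Fin d) → ℝ) : Prop := ∀ i j, ∃ r : ℕ, 0 < (U μ ^ r) i j

/-- spectral gap: minimum of `1 - Re z` over the eigenvalues `z` of `U` with a non-constant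
eigenvector -/
noncomputable def gap {d : ℕ} (μ : Equiv.Perm (Fin d) → ℝ) : ℝ :=
  sInf {x : ℝ | ∃ (z : ℂ) (v : Fin d → ℂ), (∃ i j, v i ≠ v j) ∧
    ((U μ).map (fun a => (a : ℂ))).mulVec v = z • v ∧ x = 1 - z.re}

end Pool.Agent.H979.BK
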